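import Pool.Agent.H78.STN.Stmts2

/-! Row CH4 of the board sto: the least element is at most `100001`. -/

set_option autoImplicit false

open Finset Pool.Agent.H40.COL

namespace Pool.STN

theorem ch4_log (n : ℕ) (x : ℝ) (hx : 0 < x) (h : x ≤ (27 / 10 : ℝ) ^ n) : Real.log x ≤ n := by
  rw [Real.log_le_iff_le_exp hx]
  refine h.trans ?_
  rw [← Real.exp_one_pow]
  refine pow_le_pow_left₀ (by norm_num) ?_ n
  have := Real.exp_one_gt_d9
  linarith

theorem CH4_thm (h1 : CNVStmt) (h2 : CW2Stmt) (h3 : CW3Stmt) (h4 : BG4Stmt) : CH4Stmt := by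
  intro k U m0 hk hU hm hlog hL
  have hmR : (2 : ℝ) ≤ (m0 : ℝ) := by exact_mod_cast hm
  have hm1 : 0 < (m0 : ℝ) - 1 := by linarith
  have hm0 : 0 < (m0 : ℝ) := by linarith
  have hk1 : k < 2500000 := by
    by_contra hc
    exact h4 k U m0 hU (not_lt.1 hc) hm hlog hL
  rw [abs_sub_comm] at hL
  have key : ∀ δ : ℝ, δ ≤ |(k : ℝ) * Real.log 3 - ((k + U : ℕ) : ℝ) * Real.log 2| →
      δ * ((m0 : ℝ) - 1) ≤ 4 := by
    intro δ hδ
    have := hδ.trans hL
    rwa [le_div_iff₀ hm1] at this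
  have e1 := key _ (h3 k (k + U) hk hk1)
  have hk2 : k < 31867 := by
    have h5 : Real.log m0 ≤ ((19 : ℕ) : ℝ) := by
      refine ch4_log 19 _ hm0 ?_
      have : (m0 : ℝ) ≤ 66666668 := by linarith
      refine this.trans ?_
      norm_num
    have h6 : (k : ℝ) < 31867 := by
      push_cast at h5
      linarith
    exact_mod_cast h6
  have e2 := key _ (h2 k (k + U) hk hk2)
  have hk3 : k < 15601 := by
    have h5 : Real.log m0 ≤ ((13 : ℕ) : ℝ) := by
      refine ch4_log 13 _ hm0 ?_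
      have : (m0 : ℝ) ≤ 222224 := by linarith
      refine this.trans ?_
      norm_num
    have h6 : (k : ℝ) < 15601 := by
      push_cast at h5
      linarith
    exact_mod_cast h6
  have e3 := key _ (h1 k (k + U) hk hk3)
  have h7 : (m0 : ℝ) ≤ 100001 := by linarith
  exact_mod_cast h7

end Pool.STN
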