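import Pool.Agent.H78.STN.Stmts

/-! Row INT of the board stn: divisibility of the coefficients. -/

set_option autoImplicit false

open Polynomial

namespace Pool.STN

theorem int_aux (c e : ℤ) (Q : ℤ[X]) (h : Pz.comp (C e * X) = C c * Q) (hd : e ^ 3 ∣ 3 * c)
    (n j : ℕ) : e ^ (3 * n) ∣ 3 ^ n * (Pz ^ n).coeff j * e ^ j := by
  have h1 : ((Pz ^ n).comp (C e * X)).coeff j = (Pz ^ n).coeff j * e ^ j :=
    comp_C_mul_X_coeff
  have h2 : (Pz ^ n).comp (C e * X) = C (c ^ n) * Q ^ n := by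
    rw [pow_comp, h, mul_pow, C_pow]
  rw [h2, coeff_C_mul] at h1
  rw [mul_assoc, ← h1, ← mul_assoc, ← mul_pow, pow_mul]
  exact Dvd.dvd.mul_right (pow_dvd_pow_of_dvd hd n) _

theorem int_comp (e : ℤ) :
    Pz.comp (C e * X) = (C e * X - C 6) ^ 3 * (C e * X - C 8) ^ 2 * (C e * X - C 9) := by
  unfold Pz
  simp only [mul_comp, pow_comp, sub_comp, X_comp, C_comp]

theorem INT_thm : INTStmt := by
  intro n j e he
  rcases he with rfl | rfl | rfl
  · refine int_aux 2592 6 ((X - 1) ^ 3 * (3 * X - 4) ^ 2 * (2 * X - 3)) ?_ (by norm_num) n j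
    rw [int_comp]
    simp only [map_ofNat]
    ring
  · refine int_aux 512 8 ((4 * X - 3) ^ 3 * (X - 1) ^ 2 * (8 * X - 9)) ?_ (by norm_num) n j
    rw [int_comp]
    simp only [map_ofNat]
    ring
  · refine int_aux 243 9 ((3 * X - 2) ^ 3 * (9 * X - 8) ^ 2 * (X - 1)) ?_ (by norm_num) n j
    rw [int_comp]
    simp only [map_ofNat]
    ring

end Pool.STN
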